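import Mathlib

/-!
# MP_154e02_al: square roots of `X^[*] X` with the kernel of `X` need not be replaceable by
# `H`-selfadjoint ones

`𝕜` is `ℝ` or `ℂ`, `H` is Hermitian and invertible, `adj H X = H⁻¹ Xᴴ H` is the `H`-adjoint.
-/

set_option autoImplicit false

open Matrix

namespace Pool.Agent.Results.MP_154e02_al.NoSelfadjointRoot

variable {𝕜 : Type} [RCLike 𝕜] {n : ℕ}

/-- The `H`-adjoint `H⁻¹ Xᴴ H` of `X`. -/
noncomputable def adj (H X : Matrix (Fin n) (Fin n) 𝕜) : Matrix (Fin n) (Fin n) 𝕜 :=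
  H⁻¹ * Xᴴ * H

/-- `X` and `Y` have the same kernel. -/
def SameKer (X Y : Matrix (Fin n) (Fin n) 𝕜) : Prop :=
  ∀ v : Fin n → 𝕜, X *ᵥ v = 0 ↔ Y *ᵥ v = 0

/-- The hypotheses of the question: `H` is Hermitian and invertible, `Y² = X^[*] X` and
`ker Y = ker X`. -/
def Hyp (H X Y : Matrix (Fin n) (Fin n) 𝕜) : Prop :=
  H.IsHermitian ∧ IsUnit H ∧ Y ^ 2 = adj H X * X ∧ SameKer Y X

section first

variable (𝕜) (n)

/-- `diag (1, -1, 1, …, 1)`. -/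
noncomputable def H₁ : Matrix (Fin (n + 2)) (Fin (n + 2)) 𝕜 :=
  diagonal fun i => if i = 1 then -1 else 1

/-- `E₀₀ + E₁₀`. -/
noncomputable def X₁ : Matrix (Fin (n + 2)) (Fin (n + 2)) 𝕜 :=
  Matrix.of fun i j => if j = 0 ∧ (i = 0 ∨ i = 1) then 1 else 0

/-- `E₁₀`. -/
noncomputable def Y₁ : Matrix (Fin (n + 2)) (Fin (n + 2)) 𝕜 :=
  Matrix.of fun i j => if j = 0 ∧ i = 1 then 1 else 0

theorem H₁_herm : (H₁ 𝕜 n).IsHermitian := by
  unfold H₁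
  rw [Matrix.IsHermitian, diagonal_conjTranspose]
  congr 1
  funext i
  simp only [Pi.star_apply]
  split_ifs <;> simp

theorem H₁_sq : H₁ 𝕜 n * H₁ 𝕜 n = 1 := by
  unfold H₁
  rw [diagonal_mul_diagonal, ← diagonal_one]
  congr 1
  funext i
  split_ifs <;> simp

theorem H₁_inv : (H₁ 𝕜 n)⁻¹ = H₁ 𝕜 n := inv_eq_left_inv (H₁_sq 𝕜 n)

theorem H₁_unit : IsUnit (H₁ 𝕜 n) := IsUnit.of_mul_eq_one _ (H₁_sq 𝕜 n)

theorem X₁_iso : (X₁ 𝕜 n)ᴴ * (H₁ 𝕜 n * X₁ 𝕜 n) = 0 := by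
  ext i j
  rw [Matrix.mul_apply]
  simp only [H₁, diagonal_mul, conjTranspose_apply, X₁, Matrix.of_apply, Matrix.zero_apply]
  rw [Fin.sum_univ_succ, Fin.sum_univ_succ]
  have h0 : ∀ k : Fin n, (k.succ.succ : Fin (n + 2)) ≠ 0 := fun k => Fin.succ_ne_zero _
  have h1 : ∀ k : Fin n, (k.succ.succ : Fin (n + 2)) ≠ 1 := fun k h => by
    have := congrArg Fin.val h
    simp at this
  have h10 : (Fin.succ (0 : Fin (n + 1)) : Fin (n + 2)) = 1 := rfl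
  simp only [h10, h0, h1]
  by_cases hi : i = 0 <;> by_cases hj : j = 0 <;> simp [hi, hj]

theorem adjX₁ : adj (H₁ 𝕜 n) (X₁ 𝕜 n) * X₁ 𝕜 n = 0 := by
  rw [adj, Matrix.mul_assoc, Matrix.mul_assoc, X₁_iso, Matrix.mul_zero]

theorem Y₁_sq : Y₁ 𝕜 n ^ 2 = 0 := by
  ext i j
  rw [pow_two, Matrix.mul_apply]
  simp only [Y₁, Matrix.of_apply, Matrix.zero_apply]
  apply Finset.sum_eq_zero
  intro k _
  by_cases hk : k = 0
  · subst hk
    simp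
  · simp [hk]

theorem X₁_mulVec (v : Fin (n + 2) → 𝕜) : X₁ 𝕜 n *ᵥ v = 0 ↔ v 0 = 0 := by
  constructor
  · intro h
    have := congrFun h 0
    simpa [X₁, Matrix.mulVec, dotProduct, Finset.sum_ite_eq'] using this
  · intro h
    ext i
    simp only [X₁, Matrix.mulVec, dotProduct, Matrix.of_apply, Pi.zero_apply]
    apply Finset.sum_eq_zero
    intro k _
    by_cases hk : k = 0
    · subst hk; simp [h]
    · simp [hk]

theorem Y₁_mulVec (v : Fin (n + 2) → 𝕜) : Y₁ 𝕜 n *ᵥ v = 0 ↔ v 0 = 0 := by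
  constructor
  · intro h
    have := congrFun h 1
    simpa [Y₁, Matrix.mulVec, dotProduct, Finset.sum_ite_eq'] using this
  · intro h
    ext i
    simp only [Y₁, Matrix.mulVec, dotProduct, Matrix.of_apply, Pi.zero_apply]
    apply Finset.sum_eq_zero
    intro k _
    by_cases hk : k = 0
    · subst hk; simp [h]
    · simp [hk]

theorem hyp₁ : Hyp (H₁ 𝕜 n) (X₁ 𝕜 n) (Y₁ 𝕜 n) := by
  refine ⟨H₁_herm 𝕜 n, H₁_unit 𝕜 n, ?_, fun v => ?_⟩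
  · rw [Y₁_sq, adjX₁]
  · rw [X₁_mulVec, Y₁_mulVec]

theorem no₁ (A : Matrix (Fin (n + 2)) (Fin (n + 2)) 𝕜) (hA : adj (H₁ 𝕜 n) A = A)
    (hA2 : A ^ 2 = adj (H₁ 𝕜 n) (X₁ 𝕜 n) * X₁ 𝕜 n) (hk : SameKer A (X₁ 𝕜 n)) : False := by
  rw [adjX₁] at hA2
  have hHA : H₁ 𝕜 n * A = Aᴴ * H₁ 𝕜 n := by
    conv_lhs => rw [← hA]
    rw [adj, H₁_inv, ← Matrix.mul_assoc, ← Matrix.mul_assoc, H₁_sq, Matrix.one_mul]
  -- the columns of `A` other than the first one vanish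
  have hcol : ∀ i j : Fin (n + 2), j ≠ 0 → A i j = 0 := by
    intro i j hj
    have h := (hk (Pi.single j 1)).2 ((X₁_mulVec 𝕜 n _).2 (by simp [hj.symm]))
    have := congrFun h i
    simpa using this
  have hrow : ∀ i : Fin (n + 2), i ≠ 0 → A i 0 = 0 := by
    intro i hi
    have h := congrFun (congrFun hHA i) 0
    rw [H₁, diagonal_mul, mul_diagonal, conjTranspose_apply, hcol 0 i hi] at h
    simp only [star_zero, zero_mul, mul_eq_zero] at h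
    rcases h with h | h
    · split_ifs at h <;> simp at h
    · exact h
  have h00 : A 0 0 = 0 := by
    have h := congrFun (congrFun hA2 0) 0
    rw [pow_two, Matrix.mul_apply, Finset.sum_eq_single 0] at h
    · simpa using h
    · intro k _ hk0
      rw [hcol 0 k hk0, zero_mul]
    · simp
  have hA0 : A = 0 := by
    ext i j
    by_cases hj : j = 0
    · subst hj
      by_cases hi : i = 0
      · subst hi; exact h00
      · exact hrow i hi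
    · exact hcol i j hj
  have := (X₁_mulVec 𝕜 n (Pi.single 0 1)).1 ((hk _).1 (by rw [hA0, Matrix.zero_mulVec]))
  simp at this

end first

section second

variable (𝕜)

/-- `diag (1, 1, -1, -1)`. -/
noncomputable def H₂ : Matrix (Fin 4) (Fin 4) 𝕜 := !![1, 0, 0, 0; 0, 1, 0, 0; 0, 0, -1, 0; 0, 0, 0, -1]

/-- An invertible matrix with `X^[*] X = diag (-1, -1, -4, -4)`. -/
noncomputable def X₂ : Matrix (Fin 4) (Fin 4) 𝕜 := !![0, 0, 2, 0; 0, 0, 0, 2; 1, 0, 0, 0; 0, 1, 0, 0]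

/-- A square root of `diag (-1, -1, -4, -4)`. -/
noncomputable def Y₂ : Matrix (Fin 4) (Fin 4) 𝕜 := !![0, 1, 0, 0; -1, 0, 0, 0; 0, 0, 0, 2; 0, 0, -2, 0]

theorem H₂_herm : (H₂ 𝕜).IsHermitian := by
  ext i j
  fin_cases i <;> fin_cases j <;> simp [H₂, conjTranspose_apply]

theorem H₂_sq : H₂ 𝕜 * H₂ 𝕜 = 1 := by
  ext i j
  fin_cases i <;> fin_cases j <;> simp [H₂, Matrix.mul_apply, Fin.sum_univ_four]

theorem H₂_inv : (H₂ 𝕜)⁻¹ = H₂ 𝕜 := inv_eq_left_inv (H₂_sq 𝕜)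

theorem adjX₂ : adj (H₂ 𝕜) (X₂ 𝕜) * X₂ 𝕜 =
    !![-1, 0, 0, 0; 0, -1, 0, 0; 0, 0, -4, 0; 0, 0, 0, -4] := by
  have hX : (X₂ 𝕜)ᴴ = !![0, 0, 1, 0; 0, 0, 0, 1; 2, 0, 0, 0; 0, 2, 0, 0] := by
    ext i j
    fin_cases i <;> fin_cases j <;> simp [X₂, conjTranspose_apply]
  rw [adj, H₂_inv, hX]
  ext i j
  fin_cases i <;> fin_cases j <;>
    simp [H₂, X₂, Matrix.mul_apply, Fin.sum_univ_four] <;> norm_num

theorem Y₂_sq : Y₂ 𝕜 ^ 2 = !![-1, 0, 0, 0; 0, -1, 0, 0; 0, 0, -4, 0; 0, 0, 0, -4] := by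
  rw [pow_two]
  ext i j
  fin_cases i <;> fin_cases j <;>
    simp [Y₂, Matrix.mul_apply, Fin.sum_univ_four] <;> norm_num

theorem X₂_unit : IsUnit (X₂ 𝕜) := by
  apply IsUnit.of_mul_eq_one !![0, 0, 1, 0; 0, 0, 0, 1; 1/2, 0, 0, 0; 0, 1/2, 0, 0]
  ext i j
  fin_cases i <;> fin_cases j <;> simp [X₂, Matrix.mul_apply, Fin.sum_univ_four]

theorem Y₂_unit : IsUnit (Y₂ 𝕜) := by
  apply IsUnit.of_mul_eq_one !![0, -1, 0, 0; 1, 0, 0, 0; 0, 0, 0, -1/2; 0, 0, 1/2, 0]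
  ext i j
  fin_cases i <;> fin_cases j <;> simp [Y₂, Matrix.mul_apply, Fin.sum_univ_four]
  norm_num

theorem sameKer_of_units {X Y : Matrix (Fin n) (Fin n) 𝕜} (hX : IsUnit X) (hY : IsUnit Y) :
    SameKer X Y := by
  have key : ∀ Z : Matrix (Fin n) (Fin n) 𝕜, IsUnit Z → ∀ v, Z *ᵥ v = 0 ↔ v = 0 := by
    intro Z hZ v
    refine ⟨fun h => ?_, fun h => by rw [h, Matrix.mulVec_zero]⟩
    apply Matrix.mulVec_injective_of_isUnit hZ
    rw [h, Matrix.mulVec_zero]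
  intro v
  rw [key X hX, key Y hY]

theorem hyp₂ : Hyp (H₂ 𝕜) (X₂ 𝕜) (Y₂ 𝕜) := by
  refine ⟨H₂_herm 𝕜, IsUnit.of_mul_eq_one _ (H₂_sq 𝕜), ?_,
    sameKer_of_units 𝕜 (Y₂_unit 𝕜) (X₂_unit 𝕜)⟩
  rw [Y₂_sq, adjX₂]

theorem no₂ (A : Matrix (Fin 4) (Fin 4) 𝕜) (hA : adj (H₂ 𝕜) A = A)
    (hA2 : A ^ 2 = adj (H₂ 𝕜) (X₂ 𝕜) * X₂ 𝕜) : False := by
  rw [adjX₂] at hA2
  have hHA : H₂ 𝕜 * A = Aᴴ * H₂ 𝕜 := by
    conv_lhs => rw [← hA]
    rw [adj, H₂_inv, ← Matrix.mul_assoc, ← Matrix.mul_assoc, H₂_sq, Matrix.one_mul]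
  have hcomm : A * !![-1, 0, 0, 0; 0, -1, 0, 0; 0, 0, -4, 0; 0, 0, 0, -4] =
      !![-1, 0, 0, 0; 0, -1, 0, 0; 0, 0, -4, 0; 0, 0, 0, -4] * A := by
    rw [← hA2, ← pow_succ, ← pow_succ']
  have h02 : A 0 2 = 0 := by
    have h := congrFun (congrFun hcomm 0) 2
    simp [Matrix.mul_apply, Fin.sum_univ_four] at h
    have h3 : (3 : 𝕜) * A 0 2 = 0 := by linear_combination h
    simpa using h3
  have h03 : A 0 3 = 0 := by
    have h := congrFun (congrFun hcomm 0) 3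
    simp [Matrix.mul_apply, Fin.sum_univ_four] at h
    have h3 : (3 : 𝕜) * A 0 3 = 0 := by linear_combination h
    simpa using h3
  have h0 : star (A 0 0) = A 0 0 := by
    have h := congrFun (congrFun hHA 0) 0
    simp [H₂, Matrix.mul_apply, Fin.sum_univ_four, conjTranspose_apply] at h
    exact h.symm
  have h1 : A 1 0 = star (A 0 1) := by
    have h := congrFun (congrFun hHA 1) 0
    simpa [H₂, Matrix.mul_apply, Fin.sum_univ_four, conjTranspose_apply] using h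
  have h := congrFun (congrFun hA2 0) 0
  rw [pow_two, Matrix.mul_apply, Fin.sum_univ_four, h02, h03, h1] at h
  have hre : RCLike.re (A 0 0 * A 0 0) = RCLike.re (A 0 0 * star (A 0 0)) := by rw [h0]
  have h5 : A 0 0 * star (A 0 0) + A 0 1 * star (A 0 1) = -1 := by
    rw [h0]
    simpa using h
  have h6 := congrArg (RCLike.re (K := 𝕜)) h5
  rw [map_add] at h6
  have e : ∀ z : 𝕜, RCLike.re (z * star z) = ‖z‖ ^ 2 := by
    intro z
    have : z * star z = ((‖z‖ ^ 2 : ℝ) : 𝕜) := by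
      have := RCLike.mul_conj z
      simpa using this
    rw [this, RCLike.ofReal_re]
  rw [e, e] at h6
  simp at h6
  nlinarith [sq_nonneg ‖A 0 0‖, sq_nonneg ‖A 0 1‖]

end second

/-- For `𝕜 = ℝ` and for `𝕜 = ℂ`: in every size at least two there are an invertible Hermitian `H` and
matrices `X`, `Y` with `Y² = X^[*] X` and `ker Y = ker X` such that no `H`-selfadjoint `A` satisfies
`A² = X^[*] X` and `ker A = ker X`. Moreover there are such `H`, `X`, `Y` of size four with `X`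
invertible, for which `X^[*] X` has no `H`-selfadjoint square root at all. -/
theorem result (𝕜 : Type) [RCLike 𝕜] :
    (∀ n : ℕ, 2 ≤ n → ∃ H X Y : Matrix (Fin n) (Fin n) 𝕜, Hyp H X Y ∧
      ¬ ∃ A : Matrix (Fin n) (Fin n) 𝕜, adj H A = A ∧ A ^ 2 = adj H X * X ∧ SameKer A X) ∧
    (∃ H X Y : Matrix (Fin 4) (Fin 4) 𝕜, IsUnit X ∧ Hyp H X Y ∧
      ¬ ∃ A : Matrix (Fin 4) (Fin 4) 𝕜, adj H A = A ∧ A ^ 2 = adj H X * X) := by
  refine ⟨?_, ⟨H₂ 𝕜, X₂ 𝕜, Y₂ 𝕜, X₂_unit 𝕜, hyp₂ 𝕜, ?_⟩⟩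
  · intro n hn
    obtain ⟨m, rfl⟩ := Nat.exists_eq_add_of_le' hn
    refine ⟨H₁ 𝕜 m, X₁ 𝕜 m, Y₁ 𝕜 m, hyp₁ 𝕜 m, ?_⟩
    rintro ⟨A, h1, h2, h3⟩
    exact no₁ 𝕜 m A h1 h2 h3
  · rintro ⟨A, h1, h2⟩
    exact no₂ 𝕜 A h1 h2

end Pool.Agent.Results.MP_154e02_al.NoSelfadjointRoot
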